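import Pool.Agent.Run7.h175.Arrow

/-!
# Fano-goodness of Berge-acyclic 3-uniform hypergraphs
-/

namespace Pool.Agent.Results.MP_7783b9_co.LooseForests

/-- The seven lines of the Fano plane, on the points `0, ..., 6`. -/
def fanoPlane : Finset (Finset (Fin 7)) :=
  {{0, 1, 3}, {1, 2, 4}, {2, 3, 5}, {3, 4, 6}, {4, 5, 0}, {5, 6, 1}, {6, 0, 2}}

/-- A 3-uniform hypergraph with vertex set `V`. -/
structure Hypergraph3 (V : Type) where
  /-- the edges -/
  edges : Finset (Finset V)
  /-- every edge has three vertices -/
  card_eq_three : ∀ e ∈ edges, e.card = 3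

/-- In every colouring of the triples of an `N`-element set (red: the triples `e` with `red e`,
blue: the others) there is a red copy of `H` or a blue copy of the Fano plane. -/
def Arrows {V : Type} (H : Hypergraph3 V) (N : ℕ) : Prop :=
  ∀ red : Finset (Fin N) → Prop,
    (∃ f : V ↪ Fin N, ∀ e ∈ H.edges, red (e.map f)) ∨
      ∃ g : Fin 7 ↪ Fin N, ∀ l ∈ fanoPlane, ¬ red (l.map g)

/-- `r = r(H, F)` is the least `N` such that `Arrows H N`. -/
def IsRamseyNumber {V : Type} (H : Hypergraph3 V) (r : ℕ) : Prop :=
  IsLeast {N : ℕ | Arrows H N} r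

/-- `H` is `F`-good: `r(H, F) = 2 (v(H) - 1) + 1`. -/
def FanoGood {V : Type} [Fintype V] (H : Hypergraph3 V) : Prop :=
  ∃ r : ℕ, IsRamseyNumber H r ∧ (r : ℤ) = 2 * ((Fintype.card V : ℤ) - 1) + 1

/-- The bipartite vertex–edge incidence graph of `H`. -/
def incidence {V : Type} (H : Hypergraph3 V) :
    SimpleGraph (V ⊕ {e : Finset V // e ∈ H.edges}) where
  Adj x y := ∃ (v : V) (e : {e : Finset V // e ∈ H.edges}), v ∈ e.1 ∧
    ((x = Sum.inl v ∧ y = Sum.inr e) ∨ (x = Sum.inr e ∧ y = Sum.inl v))
  symm := by
    constructor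
    rintro x y ⟨v, e, h, h' | h'⟩
    · exact ⟨v, e, h, Or.inr ⟨h'.2, h'.1⟩⟩
    · exact ⟨v, e, h, Or.inl ⟨h'.2, h'.1⟩⟩
  loopless := by
    constructor
    rintro x ⟨v, e, h, ⟨h1, h2⟩ | ⟨h1, h2⟩⟩
    · rw [h1] at h2; exact absurd h2 (by simp)
    · rw [h1] at h2; exact absurd h2 (by simp)

section

open Run7.h175

variable {V : Type} [Fintype V]

theorem arrows_of_arr [Nonempty V] [DecidableEq V] (H : Hypergraph3 V) {N : ℕ}
    (h : Arr (Finset.univ : Finset V) H.edges N) : Arrows H N := by
  intro red
  by_cases hF : HasFano red (Finset.univ : Finset (Fin N))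
  · right
    obtain ⟨g, hg, -, h3⟩ := hF
    refine ⟨⟨g, hg⟩, fun l hl => ?_⟩
    rw [Finset.map_eq_image]
    exact h3 l hl
  · left
    obtain ⟨f, h1, -, h3⟩ := h (Fin N) red Finset.univ (by simp) hF
    refine ⟨⟨f, fun a b hab => h1 a (Finset.mem_univ a) b (Finset.mem_univ b) hab⟩,
      fun e he => ?_⟩
    rw [Finset.map_eq_image]
    exact h3 e he

theorem fano_mono_aux : ∀ a b c d e f g : Bool,
    (a = b ∧ b = d) ∨ (b = c ∧ c = e) ∨ (c = d ∧ d = f) ∨ (d = e ∧ e = g) ∨ (e = f ∧ f = a) ∨
      (f = g ∧ g = b) ∨ (g = a ∧ a = c) := by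
  decide

theorem fano_mono (c : Fin 7 → Bool) : ∃ l ∈ fanoPlane, ∀ i ∈ l, ∀ j ∈ l, c i = c j := by
  have key : ∀ x y z : Fin 7, c x = c y ∧ c y = c z →
      ∀ i ∈ ({x, y, z} : Finset (Fin 7)), ∀ j ∈ ({x, y, z} : Finset (Fin 7)), c i = c j := by
    rintro x y z ⟨h1, h2⟩ i hi j hj
    simp only [Finset.mem_insert, Finset.mem_singleton] at hi hj
    rcases hi with rfl | rfl | rfl <;> rcases hj with rfl | rfl | rfl <;> simp_all
  rcases fano_mono_aux (c 0) (c 1) (c 2) (c 3) (c 4) (c 5) (c 6) with
    h | h | h | h | h | h | h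
  · exact ⟨{0, 1, 3}, by simp [fanoPlane], key _ _ _ h⟩
  · exact ⟨{1, 2, 4}, by simp [fanoPlane], key _ _ _ h⟩
  · exact ⟨{2, 3, 5}, by simp [fanoPlane], key _ _ _ h⟩
  · exact ⟨{3, 4, 6}, by simp [fanoPlane], key _ _ _ h⟩
  · exact ⟨{4, 5, 0}, by simp [fanoPlane], key _ _ _ h⟩
  · exact ⟨{5, 6, 1}, by simp [fanoPlane], key _ _ _ h⟩
  · exact ⟨{6, 0, 2}, by simp [fanoPlane], key _ _ _ h⟩

omit [Fintype V] in
theorem not_arrows_small (H : Hypergraph3 V) (hE : H.edges.Nonempty) {N : ℕ} (hN : N ≤ 6) :
    ¬ Arrows H N := by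
  intro h
  rcases h (fun _ => False) with ⟨f, hf⟩ | ⟨g, -⟩
  · obtain ⟨e, he⟩ := hE
    exact hf e he
  · have := Fintype.card_le_of_embedding g
    simp only [Fintype.card_fin] at this
    omega

theorem not_arrows_connected (H : Hypergraph3 V) (hc : (incidence H).Connected) {N : ℕ}
    (hN : N ≤ 2 * (Fintype.card V - 1)) : ¬ Arrows H N := by
  classical
  intro h
  -- two cliques of at most `card V - 1` points
  let c : Fin N → Bool := fun i => decide (i.1 < Fintype.card V - 1)
  rcases h (fun e => ∀ i ∈ e, ∀ j ∈ e, c i = c j) with ⟨f, hf⟩ | ⟨g, hg⟩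
  · have hne : Nonempty V := by
      obtain ⟨x⟩ := hc.nonempty
      rcases x with v | ⟨e, he⟩
      · exact ⟨v⟩
      · obtain ⟨v, _⟩ : e.Nonempty := by
          rw [← Finset.card_pos, H.card_eq_three e he]; norm_num
        exact ⟨v⟩
    obtain ⟨a⟩ := hne
    -- the whole copy lies on one side
    have hside : ∀ v, c (f v) = c (f a) := by
      have hcn := Conn_of_connected (E := H.edges) hc
      have hA := hcn (Finset.univ.filter (fun v => c (f v) = c (f a))) (Finset.subset_univ _)
        ⟨a, by simp⟩ (by
          intro e he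
          by_cases hd : Disjoint e (Finset.univ.filter (fun v => c (f v) = c (f a)))
          · exact Or.inr hd
          · left
            rw [Finset.not_disjoint_iff] at hd
            obtain ⟨v, hv, hvA⟩ := hd
            intro w hw
            simp only [Finset.mem_filter, Finset.mem_univ, true_and] at hvA ⊢
            rw [← hvA]
            exact hf e he (f w) (Finset.mem_map_of_mem f hw) (f v) (Finset.mem_map_of_mem f hv))
      intro v
      have : v ∈ Finset.univ.filter (fun v => c (f v) = c (f a)) := by
        rw [hA]; exact Finset.mem_univ v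
      simpa using this
    have hsub : (Finset.univ : Finset V).map f ⊆ Finset.univ.filter (fun i => c i = c (f a)) := by
      intro i hi
      obtain ⟨v, -, rfl⟩ := Finset.mem_map.1 hi
      simpa using hside v
    have hcard := Finset.card_le_card hsub
    rw [Finset.card_map, Finset.card_univ] at hcard
    have hVpos : 0 < Fintype.card V := Fintype.card_pos_iff.2 ⟨a⟩
    have htrue : (Finset.univ.filter (fun i : Fin N => c i = true)).card ≤ Fintype.card V - 1 := by
      have : (Finset.univ.filter (fun i : Fin N => c i = true)).card =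
          ((Finset.univ.filter (fun i : Fin N => c i = true)).image (fun i => i.1)).card :=
        (Finset.card_image_of_injective _ Fin.val_injective).symm
      rw [this]
      calc _ ≤ (Finset.range (Fintype.card V - 1)).card := by
            apply Finset.card_le_card
            intro x hx
            obtain ⟨i, hi, rfl⟩ := Finset.mem_image.1 hx
            simpa [c] using hi
        _ = _ := Finset.card_range _
    have hfalse : (Finset.univ.filter (fun i : Fin N => c i = false)).card ≤
        Fintype.card V - 1 := by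
      have : (Finset.univ.filter (fun i : Fin N => c i = false)).card =
          ((Finset.univ.filter (fun i : Fin N => c i = false)).image (fun i => i.1)).card :=
        (Finset.card_image_of_injective _ Fin.val_injective).symm
      rw [this]
      calc _ ≤ (Finset.Ico (Fintype.card V - 1) N).card := by
            apply Finset.card_le_card
            intro x hx
            obtain ⟨i, hi, rfl⟩ := Finset.mem_image.1 hx
            have h1 : Fintype.card V - 1 ≤ i.1 := by simpa [c] using hi
            exact Finset.mem_Ico.2 ⟨h1, i.2⟩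
        _ = N - (Fintype.card V - 1) := Nat.card_Ico _ _
        _ ≤ _ := by omega
    cases hb : c (f a) with
    | true => rw [hb] at hcard; omega
    | false => rw [hb] at hcard; omega
  · obtain ⟨l, hl, hmono⟩ := fano_mono (fun i => c (g i))
    apply hg l hl
    intro i hi j hj
    obtain ⟨i', hi', rfl⟩ := Finset.mem_map.1 hi
    obtain ⟨j', hj', rfl⟩ := Finset.mem_map.1 hj
    exact hmono i' hi' j' hj'

end

/-- **Fano-goodness of Berge-acyclic 3-uniform hypergraphs.** Let `H` be a finite 3-uniform
hypergraph whose incidence graph is a forest. Then `H` is `F`-good if and only if it is connected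
and does not consist of a single edge, or it consists of one edge and one isolated vertex. -/
theorem _root_.Pool.Agent.Results.MP_7783b9_co.LooseForests.result {V : Type} [Fintype V]
    (H : Hypergraph3 V) (hH : (incidence H).IsAcyclic) :
    FanoGood H ↔ ((incidence H).Connected ∧ H.edges.card ≠ 1) ∨
      (H.edges.card = 1 ∧ Fintype.card V = 4) := by
  classical
  open Run7.h175 in
  rcases isEmpty_or_nonempty V with hV | hV
  · -- no vertices
    have hE : H.edges = ∅ := by
      rw [Finset.eq_empty_iff_forall_notMem]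
      intro e he
      have h3 := H.card_eq_three e he
      obtain ⟨v, _⟩ : e.Nonempty := by rw [← Finset.card_pos, h3]; norm_num
      exact hV.elim v
    constructor
    · rintro ⟨r, -, hr⟩
      rw [Fintype.card_eq_zero] at hr
      omega
    · rintro (⟨hc, -⟩ | ⟨h1, -⟩)
      · exfalso
        obtain ⟨x⟩ := hc.nonempty
        rcases x with v | ⟨e, he⟩
        · exact hV.elim v
        · rw [hE] at he; simp at he
      · rw [hE] at h1; simp at h1
  have hNC : NC H.edges := NC_of_acyclic H.card_eq_three hH
  have hcpos : 0 < Fintype.card V := Fintype.card_pos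
  obtain ⟨hA1, hA2⟩ := forest_arr (Fintype.card V) (W := (Finset.univ : Finset V))
    (E := H.edges) Finset.card_univ Finset.univ_nonempty H.card_eq_three
    (fun e _ => Finset.subset_univ e) hNC
  rw [Finset.card_univ] at hA1 hA2
  have hgood : ∀ r : ℕ, r = 2 * Fintype.card V - 1 → Arrows H r → (∀ N < r, ¬ Arrows H N) →
      FanoGood H := by
    intro r hr h1 h2
    refine ⟨r, ⟨h1, fun N hN => ?_⟩, ?_⟩
    · by_contra hlt
      exact h2 N (by omega) hN
    · rw [hr]
      have : ((2 * Fintype.card V - 1 : ℕ) : ℤ) = 2 * (Fintype.card V : ℤ) - 1 := by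
        omega
      rw [this]; ring
  constructor
  · rintro ⟨r, ⟨hr1, hr2⟩, hr⟩
    have hr' : r = 2 * Fintype.card V - 1 := by omega
    by_cases hex : H.edges.card = 1 ∧ Fintype.card V = 4
    · exact Or.inr hex
    left
    have hcon : Conn (Finset.univ : Finset V) H.edges := by
      by_contra hnc
      have h1 := hA2 hnc (fun h => hex ⟨h.2, h.1⟩)
      have h2 := hr2 (arrows_of_arr H h1)
      omega
    have hconn : (incidence H).Connected := connected_of_Conn H.card_eq_three hcon
    refine ⟨hconn, ?_⟩
    intro hE1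
    -- a single edge
    have hLT := LT_of H.edges.card rfl Finset.univ_nonempty H.card_eq_three
      (fun e _ => Finset.subset_univ e) hNC hcon
    have hc := hLT.card
    rw [Finset.card_univ, hE1] at hc
    have : ¬ Arrows H r := not_arrows_small H (Finset.card_pos.1 (by omega)) (by omega)
    exact this hr1
  · rintro (⟨hconn, hE1⟩ | ⟨hE1, hV4⟩)
    · rw [if_neg (fun h => hE1 h.2)] at hA1
      apply hgood _ rfl (arrows_of_arr H hA1)
      intro N hN
      exact not_arrows_connected H hconn (by omega)
    · rw [if_neg (by omega)] at hA1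
      apply hgood _ rfl (arrows_of_arr H hA1)
      intro N hN
      exact not_arrows_small H (Finset.card_pos.1 (by omega)) (by omega)

end Pool.Agent.Results.MP_7783b9_co.LooseForests
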